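import Mathlib

/-! Bertini on a generic line: a monic polynomial over `K[x]` without a root in `Kb[x]` has no root
in `Kb[t]` after restriction to a generic line through a point where it is separable. -/

set_option autoImplicit false

namespace Pool.Agent.H81R2.BT

open Polynomial

/-- a root of a monic polynomial with coefficients of bounded degree has bounded degree -/
theorem natDegree_root_le {R : Type} [CommRing R] [IsDomain R] (f : R[X][X]) (hf : f.Monic) (N : ℕ)
    (hN : ∀ k, (f.coeff k).natDegree ≤ N) (p : R[X]) (hp : f.eval p = 0) : p.natDegree ≤ N := by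
  by_contra hcon
  push Not at hcon
  have hn : 0 < f.natDegree := by
    rcases Nat.eq_zero_or_pos f.natDegree with h | h
    · rw [(hf.natDegree_eq_zero).1 h] at hp
      simp at hp
    · exact h
  rw [eval_eq_sum_range, Finset.sum_range_succ, hf.coeff_natDegree, one_mul] at hp
  have h1 : p ^ f.natDegree = - ∑ k ∈ Finset.range f.natDegree, f.coeff k * p ^ k := by
    rw [eq_neg_iff_add_eq_zero, add_comm]; exact hp
  have h2 : (p ^ f.natDegree).natDegree = f.natDegree * p.natDegree := natDegree_pow _ _
  have h3 : (∑ k ∈ Finset.range f.natDegree, f.coeff k * p ^ k).natDegree ≤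
      N + (f.natDegree - 1) * p.natDegree := by
    apply natDegree_sum_le_of_forall_le
    intro k hk
    have hk' : k ≤ f.natDegree - 1 := by
      have := Finset.mem_range.1 hk
      omega
    calc (f.coeff k * p ^ k).natDegree ≤ (f.coeff k).natDegree + (p ^ k).natDegree :=
          natDegree_mul_le
      _ ≤ N + k * p.natDegree := by
          rw [natDegree_pow]
          exact Nat.add_le_add_right (hN k) _
      _ ≤ _ := Nat.add_le_add_left (Nat.mul_le_mul_right _ hk') _
  have h4 : f.natDegree * p.natDegree ≤ N + (f.natDegree - 1) * p.natDegree := by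
    rw [← h2, h1, natDegree_neg]; exact h3
  obtain ⟨n, hn'⟩ : ∃ n, f.natDegree = n + 1 := ⟨f.natDegree - 1, by omega⟩
  rw [hn'] at h4
  have h5 : (n + 1) * p.natDegree = n * p.natDegree + p.natDegree := by ring
  simp only [Nat.add_sub_cancel] at h4
  omega

section heart

variable {K Kb : Type} [Field K] [Field Kb] [Algebra K Kb] {ι : Type}

/-- the generic line through `a` -/
noncomputable def genLine (Kb : Type) [Field Kb] [Algebra K Kb] (a : ι → K) :
    MvPolynomial ι K →+* (MvPolynomial ι Kb)[X] :=
  MvPolynomial.eval₂Hom (C.comp (MvPolynomial.C.comp (algebraMap K Kb)))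
    (fun i => C (MvPolynomial.C (algebraMap K Kb (a i))) + C (MvPolynomial.X i) * X)

/-- the line `x_i = a_i + b_i t` -/
noncomputable def line (a b : ι → K) : MvPolynomial ι K →ₐ[K] K[X] :=
  MvPolynomial.aeval (fun i => C (a i) + C (b i) * X)

theorem genLine_const (a : ι → K) :
    ((PowerSeries.constantCoeff (R := MvPolynomial ι Kb)).comp
      ((Polynomial.coeToPowerSeries.ringHom (R := MvPolynomial ι Kb)).comp (genLine Kb a))) =
    (MvPolynomial.C.comp (algebraMap K Kb)).comp (MvPolynomial.eval a) := by
  apply MvPolynomial.ringHom_ext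
  · intro r
    simp [genLine]
  · intro i
    simp [genLine]

theorem genLine_subst (a : ι → K) :
    (Polynomial.eval₂RingHom (MvPolynomial.eval₂Hom (MvPolynomial.C (σ := ι) (R := Kb))
      (fun i => MvPolynomial.X i - MvPolynomial.C (algebraMap K Kb (a i)))) 1).comp (genLine Kb a) =
    MvPolynomial.map (algebraMap K Kb) := by
  apply MvPolynomial.ringHom_ext
  · intro r
    simp [genLine]
  · intro i
    simp [genLine]

theorem genLine_spec (a b : ι → K) :
    (mapRingHom (MvPolynomial.eval (fun i => algebraMap K Kb (b i)))).comp (genLine Kb a) =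
    (mapRingHom (algebraMap K Kb)).comp (line a b : MvPolynomial ι K →+* K[X]) := by
  apply MvPolynomial.ringHom_ext
  · intro r
    simp [genLine, line]
  · intro i
    simp [genLine, line]

theorem heart [IsAlgClosed Kb] (m : (MvPolynomial ι K)[X]) (hm : m.Monic)
    (hroot : ∀ p : MvPolynomial ι Kb, (m.map (MvPolynomial.map (algebraMap K Kb))).eval p ≠ 0)
    (a : ι → K) (hsep : (m.map (MvPolynomial.eval a)).Separable) :
    ∃ e : MvPolynomial ι Kb, e ≠ 0 ∧
      ∀ b : ι → K, MvPolynomial.eval (fun i => algebraMap K Kb (b i)) e ≠ 0 →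
        ∀ p : Kb[X], ((m.map (line a b : MvPolynomial ι K →+* K[X])).map
          (mapRingHom (algebraMap K Kb))).eval p ≠ 0 := by
  classical
  let B := MvPolynomial ι Kb
  let Λ : MvPolynomial ι K →+* B[X] := genLine Kb a
  let cc : PowerSeries B →+* B := PowerSeries.constantCoeff (R := B)
  let co : B[X] →+* PowerSeries B := Polynomial.coeToPowerSeries.ringHom (R := B)
  let M : (PowerSeries B)[X] := m.map (co.comp Λ)
  have hMm : M.Monic := hm.map _
  let mb : Kb[X] := (m.map (MvPolynomial.eval a)).map (algebraMap K Kb)
  have hmbm : mb.Monic := (hm.map _).map _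
  have hmbsep : mb.Separable := hsep.map
  have hMcc : M.map cc = mb.map MvPolynomial.C := by
    simp only [M, mb, Polynomial.map_map]
    rw [genLine_const, RingHom.comp_assoc]
  -- Hensel
  have hens : ∀ c : Kb, ∃ y : PowerSeries B, mb.eval c = 0 →
      (M.eval y = 0 ∧ cc y = MvPolynomial.C c) := by
    intro c
    by_cases hc : mb.eval c = 0
    swap
    · exact ⟨0, fun h => absurd h hc⟩
    have h1 : cc (M.eval (PowerSeries.C (MvPolynomial.C c))) = 0 := by
      rw [← eval_map_apply, hMcc]
      have : cc (PowerSeries.C (MvPolynomial.C c)) = (MvPolynomial.C c : B) := by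
        simp [cc]
      rw [this, eval_map_apply, hc, map_zero]
    have h2 : IsUnit (M.derivative.eval (PowerSeries.C (MvPolynomial.C c))) := by
      rw [PowerSeries.isUnit_iff_constantCoeff]
      change IsUnit (cc _)
      rw [← eval_map_apply, ← derivative_map, hMcc]
      have : cc (PowerSeries.C (MvPolynomial.C c)) = (MvPolynomial.C c : B) := by
        simp [cc]
      rw [this, derivative_map, eval_map_apply]
      apply IsUnit.map
      rw [isUnit_iff_ne_zero]
      intro h0
      obtain ⟨u, v, huv⟩ := hmbsep
      have := congrArg (Polynomial.eval c) huv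
      rw [eval_add, eval_mul, eval_mul, hc, h0] at this
      simp at this
    obtain ⟨y, hy1, hy2⟩ := HenselianRing.is_henselian
      (I := (Ideal.span {PowerSeries.X} : Ideal (PowerSeries B))) M hMm
      (PowerSeries.C (MvPolynomial.C c)) (by
        rw [Ideal.mem_span_singleton, PowerSeries.X_dvd_iff]
        exact h1) (h2.map _)
    refine ⟨y, fun _ => ⟨hy1, ?_⟩⟩
    rw [Ideal.mem_span_singleton, PowerSeries.X_dvd_iff, map_sub, sub_eq_zero] at hy2
    change PowerSeries.constantCoeff y = _
    rw [hy2]
    simp
  choose y hy using hens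
  -- the product formula
  have hcard : Multiset.card mb.roots = mb.natDegree :=
    (IsAlgClosed.splits mb).natDegree_eq_card_roots.symm
  have hnod : mb.roots.Nodup := nodup_roots hmbsep
  have hmem : ∀ c ∈ mb.roots, mb.eval c = 0 := fun c hc => (mem_roots'.1 hc).2
  have hynod : (mb.roots.map y).Nodup := by
    refine Multiset.Nodup.map_on ?_ hnod
    intro c hc c' hc' h
    have h1 := (hy c (hmem c hc)).2
    have h2 := (hy c' (hmem c' hc')).2
    rw [h, h2] at h1
    exact (MvPolynomial.C_injective ι Kb h1).symm
  have hle : mb.roots.map y ≤ M.roots := by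
    rw [Multiset.le_iff_subset hynod]
    intro z hz
    obtain ⟨c, hc, rfl⟩ := Multiset.mem_map.1 hz
    exact mem_roots'.2 ⟨hMm.ne_zero, (hy c (hmem c hc)).1⟩
  have hdegM : M.natDegree = mb.natDegree := by
    rw [hm.natDegree_map, natDegree_map, hm.natDegree_map]
  have heq : mb.roots.map y = M.roots := by
    apply Multiset.eq_of_le_of_card_le hle
    rw [Multiset.card_map, hcard, ← hdegM]
    exact card_roots' M
  have hprod : (M.roots.map (fun z => X - C z)).prod = M := by
    apply prod_multiset_X_sub_C_of_monic_of_roots_card_eq hMm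
    rw [← heq, Multiset.card_map, hcard, hdegM]
  rw [← heq, Multiset.map_map] at hprod
  -- not polynomials
  have hnotpoly : ∀ c ∈ mb.roots, ∀ q : B[X], co q ≠ y c := by
    intro c hc q hq
    have h1 : M.eval (co q) = 0 := by rw [hq]; exact (hy c (hmem c hc)).1
    have h2 : co ((m.map Λ).eval q) = 0 := by
      rw [← eval_map_apply, Polynomial.map_map]
      exact h1
    have h3 : (m.map Λ).eval q = 0 := by
      apply Polynomial.coe_injective B
      rw [Polynomial.coe_zero]
      exact h2
    have h4 := congrArg (Polynomial.eval₂RingHom (MvPolynomial.eval₂Hom (MvPolynomial.C (σ := ι) (R := Kb))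
      (fun i => MvPolynomial.X i - MvPolynomial.C (algebraMap K Kb (a i)))) 1) h3
    rw [map_zero, ← eval_map_apply, Polynomial.map_map, genLine_subst] at h4
    exact hroot _ h4
  let N : ℕ := m.support.sup (fun k => (Λ (m.coeff k)).natDegree)
  have hN : ∀ k, (Λ (m.coeff k)).natDegree ≤ N := by
    intro k
    by_cases hk : k ∈ m.support
    · exact Finset.le_sup (f := fun k => (Λ (m.coeff k)).natDegree) hk
    · rw [notMem_support_iff.1 hk, map_zero, natDegree_zero]
      exact Nat.zero_le _
  have hd : ∀ c : Kb, ∃ d : ℕ, c ∈ mb.roots → (N < d ∧ PowerSeries.coeff d (y c) ≠ 0) := by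
    intro c
    by_cases hc : c ∈ mb.roots
    swap
    · exact ⟨0, fun h => absurd h hc⟩
    by_contra hcon
    push Not at hcon
    apply hnotpoly c hc (PowerSeries.trunc (N + 1) (y c))
    ext1 d
    change PowerSeries.coeff d ((PowerSeries.trunc (N + 1) (y c) : B[X]) : PowerSeries B) = _
    rw [Polynomial.coeff_coe, PowerSeries.coeff_trunc]
    split_ifs with h
    · rfl
    · exact ((hcon d).2 (by omega)).symm
  choose d hd using hd
  refine ⟨∏ c ∈ mb.roots.toFinset, PowerSeries.coeff (d c) (y c), ?_, ?_⟩
  · exact Finset.prod_ne_zero_iff.2 fun c hc => (hd c (Multiset.mem_toFinset.1 hc)).2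
  intro b hb p hp
  let ev : B →+* Kb := MvPolynomial.eval (fun i => algebraMap K Kb (b i))
  rw [map_prod, Finset.prod_ne_zero_iff] at hb
  -- the degree of `p`
  have hpdeg : p.natDegree ≤ N := by
    apply natDegree_root_le _ ((hm.map _).map _) N _ p hp
    intro k
    rw [coeff_map, coeff_map]
    have h1 := RingHom.congr_fun (genLine_spec (Kb := Kb) a b) (m.coeff k)
    have h2 : mapRingHom (algebraMap K Kb) ((line a b : MvPolynomial ι K →+* K[X]) (m.coeff k)) =
        (Λ (m.coeff k)).map ev := h1.symm
    rw [h2]
    exact natDegree_map_le.trans (hN k)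
  -- p is a root of the specialised product
  have hsp : ((PowerSeries.map ev).comp (co.comp Λ)) =
      (Polynomial.coeToPowerSeries.ringHom (R := Kb)).comp
        ((mapRingHom (algebraMap K Kb)).comp (line a b : MvPolynomial ι K →+* K[X])) := by
    rw [← genLine_spec]
    apply RingHom.ext
    intro x
    simp only [RingHom.comp_apply, co]
    ext n
    change PowerSeries.coeff n (PowerSeries.map ev ((Λ x : B[X]) : PowerSeries B)) =
      PowerSeries.coeff n (((Λ x).map ev : Kb[X]) : PowerSeries Kb)
    rw [PowerSeries.coeff_map, Polynomial.coeff_coe, Polynomial.coeff_coe, Polynomial.coeff_map]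
  have h1 : (M.map (PowerSeries.map ev)).eval ((p : PowerSeries Kb)) = 0 := by
    have h2 : M.map (PowerSeries.map ev) = ((m.map (line a b : MvPolynomial ι K →+* K[X])).map
        (mapRingHom (algebraMap K Kb))).map (Polynomial.coeToPowerSeries.ringHom (R := Kb)) := by
      simp only [M, Polynomial.map_map]
      rw [hsp]
    rw [h2]
    have h3 := eval_map_apply (f := (Polynomial.coeToPowerSeries.ringHom (R := Kb)))
      (p := ((m.map (line a b : MvPolynomial ι K →+* K[X])).map
        (mapRingHom (algebraMap K Kb)))) (x := p)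
    rw [hp, map_zero] at h3
    exact h3
  rw [← hprod, Polynomial.map_multiset_prod, eval_multiset_prod, Multiset.prod_eq_zero_iff,
    Multiset.map_map, Multiset.map_map, Multiset.mem_map] at h1
  obtain ⟨c, hc, h1⟩ := h1
  simp only [Function.comp_apply, Polynomial.map_sub, map_X, map_C, eval_sub, eval_X, eval_C] at h1
  have h2 : PowerSeries.coeff (d c) (p : PowerSeries Kb) = ev (PowerSeries.coeff (d c) (y c)) := by
    rw [sub_eq_zero.1 h1, PowerSeries.coeff_map]
  have h3 := hb c (Multiset.mem_toFinset.2 hc)
  apply h3
  change ev (PowerSeries.coeff (d c) (y c)) = 0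
  rw [← h2, Polynomial.coeff_coe]
  exact coeff_eq_zero_of_natDegree_lt (lt_of_le_of_lt hpdeg (hd c hc).1)

end heart

end Pool.Agent.H81R2.BT
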