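import Mathlib

set_option autoImplicit false

namespace Pool.Agent.H81R2.BT

open Polynomial

theorem noroot {K L E F ι : Type} [Field K] [CharZero K] [Field L] [Algebra K L]
    [Field E] [Algebra (MvPolynomial ι K) E] [IsFractionRing (MvPolynomial ι K) E]
    [Algebra K E] [IsScalarTower K (MvPolynomial ι K) E]
    [Field F] [Algebra E F] [Algebra L F] [Algebra K F] [IsScalarTower K E F]
    [IsScalarTower K L F] [FiniteDimensional E F] [IsGalois E F]
    (hreg : ∀ y : F, IsAlgebraic L y → y ∈ Set.range (algebraMap L F))
    (W : Subgroup (F ≃ₐ[E] F)) (hWn : W.Normal)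
    (hW : ∀ w ∈ W, ∀ x : L, w (algebraMap L F x) = algebraMap L F x)
    (θ : F) (w : F ≃ₐ[E] F) (hw : w ∈ W) (hwθ : w θ ≠ θ)
    (m : (MvPolynomial ι K)[X]) (hmθ : m.map (algebraMap (MvPolynomial ι K) E) = minpoly E θ)
    (p : MvPolynomial ι (AlgebraicClosure K)) :
    (m.map (MvPolynomial.map (algebraMap K (AlgebraicClosure K)))).eval p ≠ 0 := by
  intro hp
  have hcharF : CharZero F := charZero_of_injective_algebraMap (algebraMap K F).injective
  let xF : ι → F := fun i => algebraMap E F (algebraMap (MvPolynomial ι K) E (MvPolynomial.X i))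
  let x : ι → AlgebraicClosure F := fun i => algebraMap F (AlgebraicClosure F) (xF i)
  let AΩ : MvPolynomial ι K →+* AlgebraicClosure F := (algebraMap F (AlgebraicClosure F)).comp
    ((algebraMap E F).comp (algebraMap (MvPolynomial ι K) E))
  have hAΩ : ∀ k : K, AΩ (MvPolynomial.C k) = algebraMap K (AlgebraicClosure F) k := by
    intro k
    change algebraMap F (AlgebraicClosure F) (algebraMap E F (algebraMap (MvPolynomial ι K) E
      (algebraMap K (MvPolynomial ι K) k))) = _
    rw [← IsScalarTower.algebraMap_apply K (MvPolynomial ι K) E,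
      ← IsScalarTower.algebraMap_apply K E F,
      ← IsScalarTower.algebraMap_apply K F (AlgebraicClosure F)]
  have hAΩinj : Function.Injective AΩ :=
    (algebraMap F (AlgebraicClosure F)).injective.comp
      ((algebraMap E F).injective.comp (IsFractionRing.injective (MvPolynomial ι K) E))
  have hind : AlgebraicIndependent K x := by
    rw [algebraicIndependent_iff_injective_aeval]
    have h1 : ∀ q : MvPolynomial ι K, MvPolynomial.aeval x q = AΩ q := by
      intro q
      have h2 : (MvPolynomial.aeval x : MvPolynomial ι K →ₐ[K] _).toRingHom = AΩ := by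
        apply MvPolynomial.ringHom_ext
        · intro k
          rw [hAΩ]
          exact MvPolynomial.algHom_C _ k
        · intro i
          exact MvPolynomial.aeval_X x i
      exact RingHom.congr_fun h2 q
    intro q q' hqq'
    rw [h1, h1] at hqq'
    exact hAΩinj hqq'
  have hind' : AlgebraicIndependent (algebraicClosure K (AlgebraicClosure F)) x :=
    hind.algebraicClosure
  let ρ0 : AlgebraicClosure K →ₐ[K] AlgebraicClosure F := IsAlgClosed.lift
  let ρ1 : AlgebraicClosure K →+* algebraicClosure K (AlgebraicClosure F) :=
    (ρ0 : AlgebraicClosure K →+* AlgebraicClosure F).codRestrict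
      (algebraicClosure K (AlgebraicClosure F)) (fun z => by
        rw [mem_algebraicClosure_iff]
        exact (Algebra.IsAlgebraic.isAlgebraic (R := K) z).algHom ρ0)
  have hρ1 : ∀ z, ((ρ1 z : algebraicClosure K (AlgebraicClosure F)) : AlgebraicClosure F) = ρ0 z :=
    fun z => rfl
  let evx : MvPolynomial ι (algebraicClosure K (AlgebraicClosure F))
      →ₐ[algebraicClosure K (AlgebraicClosure F)] AlgebraicClosure F := MvPolynomial.aeval x
  have hevx : Function.Injective evx := algebraicIndependent_iff_injective_aeval.1 hind'
  let p' : MvPolynomial ι (algebraicClosure K (AlgebraicClosure F)) := MvPolynomial.map ρ1 p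
  -- `c = evx p'` is a root of the minimal polynomial
  have hcomp : ((evx : MvPolynomial ι (algebraicClosure K (AlgebraicClosure F)) →+*
      AlgebraicClosure F).comp (MvPolynomial.map ρ1)).comp
      (MvPolynomial.map (algebraMap K (AlgebraicClosure K))) = AΩ := by
    apply MvPolynomial.ringHom_ext
    · intro k
      rw [hAΩ]
      simp only [RingHom.comp_apply, MvPolynomial.map_C]
      change evx (MvPolynomial.C _) = _
      rw [MvPolynomial.algHom_C]
      change ((ρ1 (algebraMap K (AlgebraicClosure K) k) :
        algebraicClosure K (AlgebraicClosure F)) : AlgebraicClosure F) = _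
      rw [hρ1, AlgHom.commutes]
    · intro i
      simp only [RingHom.comp_apply, MvPolynomial.map_X]
      exact MvPolynomial.aeval_X x i
  have hc : aeval (evx p') (minpoly E θ) = 0 := by
    rw [← eval_map_algebraMap, ← hmθ, Polynomial.map_map]
    have h1 : (algebraMap E (AlgebraicClosure F)).comp (algebraMap (MvPolynomial ι K) E) = AΩ := by
      change _ = (algebraMap F (AlgebraicClosure F)).comp
        ((algebraMap E F).comp (algebraMap (MvPolynomial ι K) E))
      rw [IsScalarTower.algebraMap_eq E F (AlgebraicClosure F), RingHom.comp_assoc]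
    rw [h1, ← hcomp, ← Polynomial.map_map]
    have h2 := eval_map_apply (f := ((evx : MvPolynomial ι (algebraicClosure K (AlgebraicClosure F)) →+*
      AlgebraicClosure F).comp (MvPolynomial.map ρ1))) (p := m.map
        (MvPolynomial.map (algebraMap K (AlgebraicClosure K)))) (x := p)
    rw [hp, map_zero] at h2
    exact h2
  -- a conjugate
  have halgEΩ : Algebra.IsAlgebraic E (AlgebraicClosure F) := Algebra.IsAlgebraic.trans E F _
  have hcl : IsAlgClosure E (AlgebraicClosure F) := ⟨inferInstance, halgEΩ⟩
  have hnorm : Normal E (AlgebraicClosure F) := IsAlgClosure.normal E (AlgebraicClosure F)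
  obtain ⟨g, hg⟩ : ∃ g : F ≃ₐ[E] F, algebraMap F (AlgebraicClosure F) (g θ) = evx p' := by
    obtain ⟨g', hg'⟩ := minpoly.exists_algEquiv_of_root' (K := E)
      (y := algebraMap F (AlgebraicClosure F) θ) (x := evx p') (Algebra.IsAlgebraic.isAlgebraic _)
      (by rw [minpoly.algebraMap_eq (algebraMap F (AlgebraicClosure F)).injective]; exact hc)
    refine ⟨g'.restrictNormal F, ?_⟩
    rw [AlgEquiv.restrictNormal_commutes, hg']
  -- the coefficients are fixed
  have hcoef : ∀ μ, ∃ l : L, algebraMap F (AlgebraicClosure F) (algebraMap L F l) =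
      ((p'.coeff μ : algebraicClosure K (AlgebraicClosure F)) : AlgebraicClosure F) := by
    intro μ
    have h1 : ((p'.coeff μ : algebraicClosure K (AlgebraicClosure F)) : AlgebraicClosure F) ∈
        Set.range (algebraMap F (AlgebraicClosure F)) := by
      rw [InfiniteGalois.mem_range_algebraMap_iff_fixed]
      intro τ
      let τK : AlgebraicClosure F →ₐ[K] AlgebraicClosure F :=
        (τ.restrictScalars K : AlgebraicClosure F ≃ₐ[K] AlgebraicClosure F)
      let τ1 : algebraicClosure K (AlgebraicClosure F) →+* algebraicClosure K (AlgebraicClosure F) :=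
        RingHom.codRestrict ((τK : AlgebraicClosure F →+* AlgebraicClosure F).comp
          (algebraMap (algebraicClosure K (AlgebraicClosure F)) (AlgebraicClosure F)))
          (algebraicClosure K (AlgebraicClosure F)) (fun z => by
            rw [mem_algebraicClosure_iff]
            exact (mem_algebraicClosure_iff.1 z.2).algHom τK)
      have hτ1 : ∀ z, ((τ1 z : algebraicClosure K (AlgebraicClosure F)) : AlgebraicClosure F) =
          τ z := fun z => rfl
      have h2 : evx (MvPolynomial.map τ1 p') = τ (evx p') := by
        have h3 : (evx : MvPolynomial ι (algebraicClosure K (AlgebraicClosure F)) →+*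
            AlgebraicClosure F).comp (MvPolynomial.map τ1) =
            (τ : AlgebraicClosure F →+* AlgebraicClosure F).comp
            (evx : MvPolynomial ι (algebraicClosure K (AlgebraicClosure F)) →+*
              AlgebraicClosure F) := by
          apply MvPolynomial.ringHom_ext
          · intro z
            simp only [RingHom.comp_apply, MvPolynomial.map_C]
            change evx (MvPolynomial.C _) = τ (evx (MvPolynomial.C z))
            rw [MvPolynomial.algHom_C, MvPolynomial.algHom_C]
            exact hτ1 z
          · intro i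
            simp only [RingHom.comp_apply, MvPolynomial.map_X]
            change evx (MvPolynomial.X i) = τ (evx (MvPolynomial.X i))
            have h4 : evx (MvPolynomial.X i) = x i := MvPolynomial.aeval_X x i
            rw [h4]
            exact (τ.commutes (xF i)).symm
        exact RingHom.congr_fun h3 p'
      have h5 : τ (evx p') = evx p' := by
        rw [← hg]
        exact τ.commutes _
      rw [h5] at h2
      have h6 := hevx h2
      have h7 := congrArg (MvPolynomial.coeff μ) h6
      rw [MvPolynomial.coeff_map] at h7
      rw [← hτ1, h7]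
    obtain ⟨f, hf⟩ := h1
    have h2 : IsAlgebraic K (algebraMap F (AlgebraicClosure F) f) := by
      rw [hf]
      exact mem_algebraicClosure_iff.1 (p'.coeff μ).2
    rw [isAlgebraic_algebraMap_iff (algebraMap F (AlgebraicClosure F)).injective] at h2
    obtain ⟨l, hl⟩ := hreg f (h2.extendScalars (algebraMap K L).injective)
    exact ⟨l, by rw [hl, hf]⟩
  choose l hl using hcoef
  have hgθ : g θ = ∑ μ ∈ p'.support, algebraMap L F (l μ) * ∏ i ∈ μ.support, xF i ^ μ i := by
    apply (algebraMap F (AlgebraicClosure F)).injective
    rw [hg, map_sum]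
    change MvPolynomial.aeval x p' = _
    rw [MvPolynomial.aeval_def, MvPolynomial.eval₂_eq]
    apply Finset.sum_congr rfl
    intro μ _
    rw [map_mul, hl, map_prod]
    simp only [map_pow]
    rfl
  have hw' : g * w * g⁻¹ ∈ W := hWn.conj_mem w hw g
  have h1 : (g * w * g⁻¹) (g θ) = g θ := by
    rw [hgθ, map_sum]
    apply Finset.sum_congr rfl
    intro μ _
    rw [map_mul, hW _ hw', map_prod]
    simp only [map_pow]
    congr 1
    apply Finset.prod_congr rfl
    intro i _
    congr 1
    exact AlgEquiv.commutes _ _
  apply hwθ
  apply g.injective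
  rw [← h1]
  change g (w θ) = g (w (g⁻¹ (g θ)))
  have : g⁻¹ (g θ) = θ := g.symm_apply_apply θ
  rw [this]

end Pool.Agent.H81R2.BT
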