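import Mathlib

set_option autoImplicit false

namespace Pool.Agent.H81R2.BT

open Polynomial

theorem omega_aux {K F : Type} [Field K] [Field F] [Algebra (RatFunc K) F]
    [Algebra K F] [IsScalarTower K (RatFunc K) F] :
    ∃ κ : IntermediateField (RatFunc K) F, (∀ y : F, IsAlgebraic K y → y ∈ κ) ∧
      ∀ z ∈ κ, ∀ f : K[X][X], f.Monic →
        (f.map ((algebraMap (RatFunc K) F).comp (algebraMap K[X] (RatFunc K)))).eval z = 0 →
        ∃ p : (AlgebraicClosure K)[X],
          (f.map (mapRingHom (algebraMap K (AlgebraicClosure K)))).eval p = 0 := by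
  let ρ0 : AlgebraicClosure K →ₐ[K] AlgebraicClosure F := IsAlgClosed.lift
  let algKbΩ : Algebra (AlgebraicClosure K) (AlgebraicClosure F) := ρ0.toRingHom.toAlgebra
  have towKKbΩ : IsScalarTower K (AlgebraicClosure K) (AlgebraicClosure F) :=
    IsScalarTower.of_algebraMap_eq fun x => (ρ0.commutes x).symm
  let T : AlgebraicClosure F := algebraMap F (AlgebraicClosure F) (algebraMap (RatFunc K) F RatFunc.X)
  have hT1 : Transcendental K T := by
    rw [transcendental_algebraMap_iff (algebraMap F (AlgebraicClosure F)).injective,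
      transcendental_algebraMap_iff (algebraMap (RatFunc K) F).injective]
    exact RatFunc.transcendental_X
  have hT : Transcendental (AlgebraicClosure K) T := hT1.extendScalars _
  let ρ : (AlgebraicClosure K)[X] →ₐ[AlgebraicClosure K] AlgebraicClosure F := aeval T
  have hρinj : Function.Injective ρ := transcendental_iff_injective.1 hT
  let ρ' : RatFunc (AlgebraicClosure K) →+* AlgebraicClosure F :=
    IsFractionRing.lift (g := (ρ : (AlgebraicClosure K)[X] →+* AlgebraicClosure F)) hρinj
  have hρ' : ∀ p : (AlgebraicClosure K)[X],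
      ρ' (algebraMap (AlgebraicClosure K)[X] (RatFunc (AlgebraicClosure K)) p) = ρ p :=
    fun p => IsFractionRing.lift_algebraMap _ p
  have hcomp : (ρ : (AlgebraicClosure K)[X] →+* AlgebraicClosure F).comp
      (mapRingHom (algebraMap K (AlgebraicClosure K))) = (algebraMap F (AlgebraicClosure F)).comp
        ((algebraMap (RatFunc K) F).comp (algebraMap K[X] (RatFunc K))) := by
    apply Polynomial.ringHom_ext
    · intro k
      simp only [RingHom.comp_apply, coe_mapRingHom, map_C]
      have h1 : algebraMap K[X] (RatFunc K) (C k) = algebraMap K (RatFunc K) k := by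
        rw [RatFunc.algebraMap_eq_C, RatFunc.algebraMap_C]
      rw [h1, ← IsScalarTower.algebraMap_apply K (RatFunc K) F,
        ← IsScalarTower.algebraMap_apply K F (AlgebraicClosure F)]
      change aeval T (C _) = _
      rw [aeval_C, ← IsScalarTower.algebraMap_apply]
    · simp only [RingHom.comp_apply, coe_mapRingHom, map_X]
      rw [RatFunc.algebraMap_X]
      change aeval T X = _
      rw [aeval_X]
  have hpoly : ∀ p : K[X], algebraMap F (AlgebraicClosure F)
      (algebraMap (RatFunc K) F (algebraMap K[X] (RatFunc K) p)) ∈ ρ'.fieldRange := by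
    intro p
    have := RingHom.congr_fun hcomp p
    refine ⟨algebraMap _ _ (mapRingHom (algebraMap K (AlgebraicClosure K)) p), ?_⟩
    rw [hρ']
    exact this
  let S : Subfield F := (ρ'.fieldRange).comap (algebraMap F (AlgebraicClosure F))
  let κ : IntermediateField (RatFunc K) F := S.toIntermediateField (by
    intro x
    obtain ⟨a, b, _, rfl⟩ := IsFractionRing.div_surjective K[X] x
    rw [Subfield.mem_comap, map_div₀, map_div₀]
    exact div_mem (hpoly a) (hpoly b))
  have hκ : ∀ z : F, z ∈ κ ↔ algebraMap F (AlgebraicClosure F) z ∈ ρ'.fieldRange := fun z => Iff.rfl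
  refine ⟨κ, ?_, ?_⟩
  · intro y hy
    rw [hκ]
    have h1 : IsAlgebraic K (algebraMap F (AlgebraicClosure F) y) := hy.algebraMap
    have h2 : IsIntegral (AlgebraicClosure K) (algebraMap F (AlgebraicClosure F) y) :=
      (h1.extendScalars (algebraMap K (AlgebraicClosure K)).injective).isIntegral
    have h3 := IsAlgClosed.degree_eq_one_of_irreducible (AlgebraicClosure K) (minpoly.irreducible h2)
    obtain ⟨c, hc⟩ := minpoly.mem_range_of_degree_eq_one (AlgebraicClosure K) _ h3
    refine ⟨algebraMap _ _ (C c), ?_⟩
    rw [hρ', ← hc]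
    exact aeval_C T c
  · intro z hz f hf hfz
    obtain ⟨r, hr⟩ := (hκ z).1 hz
    have h1 : ((f.map (mapRingHom (algebraMap K (AlgebraicClosure K)))).map
        (algebraMap (AlgebraicClosure K)[X] (RatFunc (AlgebraicClosure K)))).eval r = 0 := by
      apply ρ'.injective
      rw [map_zero, ← eval_map_apply, hr, Polynomial.map_map, Polynomial.map_map]
      have h2 : (ρ'.comp (algebraMap (AlgebraicClosure K)[X] (RatFunc (AlgebraicClosure K)))).comp
          (mapRingHom (algebraMap K (AlgebraicClosure K))) =
          (algebraMap F (AlgebraicClosure F)).comp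
            ((algebraMap (RatFunc K) F).comp (algebraMap K[X] (RatFunc K))) := by
        rw [← hcomp]
        apply RingHom.ext
        intro p
        exact hρ' _
      rw [h2, ← Polynomial.map_map, eval_map_apply, hfz, map_zero]
    have h3 : IsIntegral (AlgebraicClosure K)[X] r :=
      ⟨_, hf.map _, by rw [← eval_map]; exact h1⟩
    obtain ⟨p, rfl⟩ := IsIntegrallyClosed.algebraMap_eq_of_integral h3
    refine ⟨p, ?_⟩
    rw [eval_map_apply] at h1
    exact RatFunc.algebraMap_injective _ (by rw [h1, map_zero])

end Pool.Agent.H81R2.BT
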