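import Mathlib
import Pool.Agent.H81R2.BT.Heart
import Pool.Agent.H81R2.BT.Spec
import Pool.Agent.H81R2.BT.NoRoot
import Pool.Agent.H391R2.T4.Blueprint

set_option autoImplicit false

namespace Pool.Agent.H81R2.BT

open Polynomial
open scoped Pointwise

/-- separability survives outside a hypersurface -/
theorem exists_sep_bad {A E : Type} [CommRing A] [IsDomain A] [Field E] [Algebra A E]
    [IsFractionRing A E] (m : A[X]) (hm : (m.map (algebraMap A E)).Separable) :
    ∃ d : A, d ≠ 0 ∧ ∀ (R : Type) [Field R] (f : A →+* R), f d ≠ 0 → (m.map f).Separable := by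
  obtain ⟨u, v, huv⟩ := hm
  obtain ⟨b1, hb1m, hb1⟩ := IsLocalization.integerNormalization_spec (nonZeroDivisors A) u
  obtain ⟨b2, hb2m, hb2⟩ := IsLocalization.integerNormalization_spec (nonZeroDivisors A) v
  set U := IsLocalization.integerNormalization (nonZeroDivisors A) u
  set V := IsLocalization.integerNormalization (nonZeroDivisors A) v
  have hinj : Function.Injective (algebraMap A E) := IsFractionRing.injective A E
  have h1 : C (b2 : A) * U * m + C (b1 : A) * V * derivative m = C ((b1 : A) * b2) := by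
    apply map_injective _ hinj
    rw [Polynomial.map_add, Polynomial.map_mul, Polynomial.map_mul, Polynomial.map_mul,
      Polynomial.map_mul, hb1, hb2, map_C, map_C, map_C, ← derivative_map, Algebra.smul_def,
      Algebra.smul_def]
    have h2 : algebraMap A E[X] (b1 : A) = C (algebraMap A E b1) := rfl
    have h3 : algebraMap A E[X] (b2 : A) = C (algebraMap A E b2) := rfl
    rw [h2, h3, map_mul, C_mul]
    calc C (algebraMap A E ↑b2) * (C (algebraMap A E ↑b1) * u) * m.map (algebraMap A E) +
          C (algebraMap A E ↑b1) * (C (algebraMap A E ↑b2) * v) * derivative (m.map (algebraMap A E))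
        = C (algebraMap A E ↑b1) * C (algebraMap A E ↑b2) *
          (u * m.map (algebraMap A E) + v * derivative (m.map (algebraMap A E))) := by ring
      _ = _ := by rw [huv, mul_one]
  refine ⟨b1 * b2, mul_ne_zero (nonZeroDivisors.ne_zero hb1m) (nonZeroDivisors.ne_zero hb2m), ?_⟩
  intro R _ f hf
  have h4 : (C (b2 : A) * U).map f * m.map f + (C (b1 : A) * V).map f * derivative (m.map f) =
      C (f (b1 * b2)) := by
    rw [derivative_map, ← Polynomial.map_mul, ← Polynomial.map_mul, ← Polynomial.map_add, h1, map_C]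
  refine ⟨C (f (b1 * b2))⁻¹ * (C (b2 : A) * U).map f, C (f (b1 * b2))⁻¹ * (C (b1 : A) * V).map f, ?_⟩
  calc C (f (b1 * b2))⁻¹ * (C (b2 : A) * U).map f * m.map f +
        C (f (b1 * b2))⁻¹ * (C (b1 : A) * V).map f * derivative (m.map f)
      = C (f (b1 * b2))⁻¹ * ((C (b2 : A) * U).map f * m.map f +
        (C (b1 : A) * V).map f * derivative (m.map f)) := by ring
    _ = 1 := by rw [h4, ← C_mul, inv_mul_cancel₀ hf, C_1]

theorem line_surjective {K ι : Type} [Field K] (a b : ι → K) (i : ι) (hb : b i ≠ 0) :
    Function.Surjective (line a b) := by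
  have hX : line a b (MvPolynomial.C (b i)⁻¹ * (MvPolynomial.X i - MvPolynomial.C (a i))) = X := by
    simp only [line, map_mul, map_sub, MvPolynomial.algHom_C, MvPolynomial.aeval_X,
      Polynomial.algebraMap_eq]
    rw [add_sub_cancel_left, ← mul_assoc, ← C_mul, inv_mul_cancel₀ hb, C_1, one_mul]
  intro p
  refine ⟨aeval (MvPolynomial.C (b i)⁻¹ * (MvPolynomial.X i - MvPolynomial.C (a i))) p, ?_⟩
  rw [← aeval_algHom_apply, hX, aeval_X_left_apply]

theorem line_eval_zero {K ι : Type} [Field K] (a b : ι → K) (D : MvPolynomial ι K) :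
    (line a b D).eval 0 = MvPolynomial.eval a D := by
  have : (Polynomial.evalRingHom (0 : K)).comp (line a b : MvPolynomial ι K →+* K[X]) =
      MvPolynomial.eval a := by
    apply MvPolynomial.ringHom_ext
    · intro r
      simp [line]
    · intro i
      simp [line]
  exact RingHom.congr_fun this D

/-- the inertia condition -/
theorem exists_inertia_bad {A C G : Type} [CommRing A] [CommRing C] [IsDomain C] [Algebra A C]
    [Group G] [Finite G] [MulSemiringAction G C] [Algebra.IsInvariant A C G] [FaithfulSMul G C] :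
    ∃ D : A, D ≠ 0 ∧ ∀ Q : Ideal C, algebraMap A C D ∉ Q →
      ∀ g : G, g ≠ 1 → ∃ x : C, g • x - x ∉ Q := by
  classical
  cases nonempty_fintype G
  have h2 : ∀ g : G, ∃ x : C, g ≠ 1 → g • x - x ≠ 0 := by
    intro g
    by_cases hg : g = 1
    · exact ⟨0, fun h => absurd hg h⟩
    · by_contra hcon
      push Not at hcon
      apply hg
      apply FaithfulSMul.eq_of_smul_eq_smul (α := C)
      intro x
      rw [one_smul]
      exact sub_eq_zero.1 (hcon x).2
  choose x hx using h2
  let D' : C := ∏ g ∈ Finset.univ.erase (1 : G), (g • x g - x g)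
  have hD' : D' ≠ 0 := Finset.prod_ne_zero_iff.2 fun g hg => hx g (Finset.ne_of_mem_erase hg)
  have h3 : ∃ D : A, algebraMap A C D = ∏ h : G, h • D' := by
    apply Algebra.IsInvariant.isInvariant (G := G)
    intro g
    rw [Finset.smul_prod']
    simp only [smul_smul]
    exact Fintype.prod_bijective (fun h => g * h) (Group.mulLeft_bijective g) _ _ fun _ => rfl
  obtain ⟨D, hD⟩ := h3
  refine ⟨D, ?_, ?_⟩
  · rintro rfl
    rw [map_zero] at hD
    have := Finset.prod_ne_zero_iff.2 (fun (h : G) (_ : h ∈ Finset.univ) =>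
      (smul_ne_zero_iff_ne h).2 hD')
    exact this hD.symm
  · intro Q hQ g hg
    refine ⟨x g, fun h5 => hQ ?_⟩
    have h6 : D' ∈ Q := by
      change (∏ g ∈ Finset.univ.erase (1 : G), (g • x g - x g)) ∈ Q
      rw [← Finset.mul_prod_erase _ _ (Finset.mem_erase.2 ⟨hg, Finset.mem_univ _⟩)]
      exact Q.mul_mem_right _ h5
    rw [hD, ← Finset.mul_prod_erase _ _ (Finset.mem_univ (1 : G)), one_smul]
    exact Q.mul_mem_right _ h6

/-- nonzero polynomials over an extension field do not vanish at some point with coordinates in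
the infinite subfield -/
theorem exists_point {K Kb ι : Type} [Field K] [Infinite K] [Field Kb] [Algebra K Kb]
    (e : MvPolynomial ι Kb) (he : e ≠ 0) :
    ∃ b : ι → K, MvPolynomial.eval (fun i => algebraMap K Kb (b i)) e ≠ 0 := by
  by_contra hcon
  push Not at hcon
  apply he
  apply MvPolynomial.funext_set (fun _ => Set.range (algebraMap K Kb))
    (fun _ => Set.infinite_range_of_injective (algebraMap K Kb).injective)
  intro x hx
  rw [map_zero]
  choose b hb using fun i => hx i (Set.mem_univ i)
  have : x = fun i => algebraMap K Kb (b i) := by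
    funext i
    exact (hb i).symm
  rw [this]
  exact hcon b

/-- the case of at least one variable -/
theorem taskA_nonempty (K L : Type) [Field K] [CharZero K] [Field L] [Algebra K L]
    [FiniteDimensional K L] [IsGalois K L] (G : Type) [Group G] [Finite G]
    (α : G →* (L ≃ₐ[K] L)) (ι : Type) [Finite ι] (i0 : ι)
    (E : Type) [Field E] [Algebra (MvPolynomial ι K) E] [IsFractionRing (MvPolynomial ι K) E]
    [Algebra K E] [IsScalarTower K (MvPolynomial ι K) E]
    (F : Type) [Field F] [Algebra E F] [Algebra L F] [Algebra K F] [IsScalarTower K E F]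
    [IsScalarTower K L F] [FiniteDimensional E F] [IsGalois E F] (γ : (F ≃ₐ[E] F) ≃* G)
    (hαγ : ∀ (σ : F ≃ₐ[E] F) (x : L), σ (algebraMap L F x) = algebraMap L F (α (γ σ) x))
    (hreg : ∀ y : F, IsAlgebraic L y → y ∈ Set.range (algebraMap L F)) :
    ∃ (F : Type) (_ : Field F) (_ : Algebra (RatFunc K) F) (_ : Algebra L F)
      (_ : Algebra K F) (_ : IsScalarTower K (RatFunc K) F) (_ : IsScalarTower K L F)
      (_ : FiniteDimensional (RatFunc K) F) (_ : IsGalois (RatFunc K) F)
      (γ : (F ≃ₐ[RatFunc K] F) ≃* G),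
      (∀ (σ : F ≃ₐ[RatFunc K] F) (x : L),
        σ (algebraMap L F x) = algebraMap L F (α (γ σ) x)) ∧
      ∀ y : F, IsAlgebraic L y → y ∈ Set.range (algebraMap L F) := by
  classical
  let A := MvPolynomial ι K
  let algAF : Algebra A F := ((algebraMap E F).comp (algebraMap A E)).toAlgebra
  have towAEF : IsScalarTower A E F := IsScalarTower.of_algebraMap_eq fun _ => rfl
  have towKAF : IsScalarTower K A F := by
    apply IsScalarTower.of_algebraMap_eq
    intro k
    rw [IsScalarTower.algebraMap_apply A E F, ← IsScalarTower.algebraMap_apply K A E,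
      ← IsScalarTower.algebraMap_apply K E F]
  have hfr : IsFractionRing (integralClosure A F) F :=
    integralClosure.isFractionRing_of_finite_extension E F
  let act : MulSemiringAction (F ≃ₐ[E] F) (integralClosure A F) :=
    IsIntegralClosure.MulSemiringAction A E F (integralClosure A F)
  have hact : ∀ (g : F ≃ₐ[E] F) (c : integralClosure A F),
      ((g • c : integralClosure A F) : F) = g (c : F) :=
    fun g c => algebraMap_galRestrict_apply A g c
  have hinv : Algebra.IsInvariant A (integralClosure A F) (F ≃ₐ[E] F) :=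
    Algebra.isInvariant_of_isGalois A E F (integralClosure A F)
  have hAF : Function.Injective (algebraMap A F) :=
    (algebraMap E F).injective.comp (IsFractionRing.injective A E)
  have hAC : Function.Injective (algebraMap A (integralClosure A F)) := by
    intro a b hab
    apply hAF
    exact congrArg (Subtype.val) hab
  have hfaith : FaithfulSMul A (integralClosure A F) :=
    (faithfulSMul_iff_algebraMap_injective A _).2 hAC
  have hcomm : SMulCommClass (F ≃ₐ[E] F) A (integralClosure A F) :=
    ⟨fun g a c => map_smul (galRestrict A E F (integralClosure A F) g) a c⟩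
  have hfaithG : FaithfulSMul (F ≃ₐ[E] F) (integralClosure A F) := by
    constructor
    intro g g' h
    apply (galRestrict A E F (integralClosure A F)).injective
    apply AlgEquiv.ext
    intro c
    exact h c
  -- the embedding of `L`
  have hLint : ∀ x : L, algebraMap L F x ∈ integralClosure A F := by
    intro x
    have h1 : IsIntegral K (algebraMap L F x) :=
      (Algebra.IsIntegral.isIntegral (R := K) x).algebraMap
    exact h1.tower_top
  let ψ : L →+* integralClosure A F :=
    (algebraMap L F).codRestrict (integralClosure A F) hLint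
  have hψval : ∀ x : L, ((ψ x : integralClosure A F) : F) = algebraMap L F x := fun _ => rfl
  let α' : (F ≃ₐ[E] F) →* (L ≃ₐ[K] L) := α.comp γ.toMonoidHom
  have hα' : ∀ (σ : F ≃ₐ[E] F) (x : L), σ (algebraMap L F x) = algebraMap L F (α' σ x) := hαγ
  have hψK : ∀ k : K, ψ (algebraMap K L k) =
      algebraMap A (integralClosure A F) (algebraMap K A k) := by
    intro k
    apply Subtype.ext
    rw [hψval]
    change _ = algebraMap A F (algebraMap K A k)
    rw [← IsScalarTower.algebraMap_apply, ← IsScalarTower.algebraMap_apply]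
  have hψ : ∀ (g : F ≃ₐ[E] F) (x : L), g • ψ x = ψ (α' g x) := by
    intro g x
    apply Subtype.ext
    rw [hact, hψval, hψval, hα']
  -- the elements `θ`
  have hθ : ∀ H : {H : Subgroup (F ≃ₐ[E] F) // ¬ α'.ker ≤ H}, ∃ (θ : integralClosure A F)
      (m : A[X]) (d : A), (∀ g ∈ H.1, g • θ = θ) ∧ m.Monic ∧
      (m.map (algebraMap A (integralClosure A F))).eval θ = 0 ∧
      (∀ p : MvPolynomial ι (AlgebraicClosure K),
        (m.map (MvPolynomial.map (algebraMap K (AlgebraicClosure K)))).eval p ≠ 0) ∧
      d ≠ 0 ∧ ∀ (R : Type) [Field R] (f : A →+* R), f d ≠ 0 → (m.map f).Separable := by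
    rintro ⟨H, hH⟩
    -- an element of `F`
    have h1 : ∃ (x : F) (w : F ≃ₐ[E] F), (∀ g ∈ H, g x = x) ∧ w ∈ α'.ker ∧ w x ≠ x := by
      by_contra hcon
      push Not at hcon
      apply hH
      rw [← IntermediateField.fixingSubgroup_fixedField H]
      intro w hw
      rw [IntermediateField.mem_fixingSubgroup_iff]
      intro x hx
      rw [IntermediateField.mem_fixedField_iff] at hx
      exact hcon x w hx hw
    obtain ⟨x, w, hx, hw, hwx⟩ := h1
    have hxalg : IsAlgebraic A x := by
      rw [IsFractionRing.isAlgebraic_iff A E F]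
      exact Algebra.IsAlgebraic.isAlgebraic x
    obtain ⟨a, ha, hint⟩ := hxalg.exists_integral_multiple
    have ha' : algebraMap A F a ≠ 0 := by
      intro h
      apply ha
      exact hAF (by rw [h, map_zero])
    have hgax : ∀ g : F ≃ₐ[E] F, g (a • x) = a • g x := by
      intro g
      rw [Algebra.smul_def, map_mul, Algebra.smul_def]
      congr 1
      exact g.commutes _
    let θ : integralClosure A F := ⟨a • x, hint⟩
    have hθint : IsIntegral A θ := Algebra.IsIntegral.isIntegral θ
    have hm1 : (minpoly A θ).map (algebraMap A E) = minpoly E (a • x) := by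
      have h2 := minpoly.isIntegrallyClosed_eq_field_fractions (R := A)
        (S := integralClosure A F) E F hθint
      exact h2.symm
    obtain ⟨d, hd, hdsep⟩ := exists_sep_bad (E := E) (minpoly A θ) (by
      rw [hm1]
      exact Algebra.IsSeparable.isSeparable E (a • x))
    refine ⟨θ, minpoly A θ, d, ?_, minpoly.monic hθint, ?_, ?_, hd, hdsep⟩
    · intro g hg
      apply Subtype.ext
      rw [hact]
      change g (a • x) = a • x
      rw [hgax, hx g hg]
    · rw [eval_map_algebraMap, minpoly.aeval]
    · intro p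
      apply noroot (L := L) (E := E) (F := F) hreg α'.ker inferInstance _ (a • x) w hw _
        (minpoly A θ) hm1 p
      · intro g hg y
        rw [hα', MonoidHom.mem_ker.1 hg]
        rfl
      · rw [hgax, Algebra.smul_def, Algebra.smul_def]
        intro h
        exact hwx (mul_left_cancel₀ ha' h)
  choose θ m d hθ1 hm hmθ hmno hd0 hdsep using hθ
  obtain ⟨D, hD0, hD⟩ := exists_inertia_bad (A := A) (C := integralClosure A F) (G := F ≃ₐ[E] F)
  let _ : Fintype {H : Subgroup (F ≃ₐ[E] F) // ¬ α'.ker ≤ H} := Fintype.ofFinite _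
  -- choice of `a`
  obtain ⟨a, ha⟩ : ∃ a : ι → K, MvPolynomial.eval a
      (D * ∏ H : {H : Subgroup (F ≃ₐ[E] F) // ¬ α'.ker ≤ H}, d H) ≠ 0 := by
    by_contra hcon
    push Not at hcon
    have h1 : D * ∏ H : {H : Subgroup (F ≃ₐ[E] F) // ¬ α'.ker ≤ H}, d H ≠ 0 :=
      mul_ne_zero hD0 (Finset.prod_ne_zero_iff.2 fun H _ => hd0 H)
    apply h1
    apply MvPolynomial.funext
    intro x
    rw [map_zero]
    exact hcon x
  rw [map_mul, map_prod] at ha
  have haD : MvPolynomial.eval a D ≠ 0 := left_ne_zero_of_mul ha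
  have had : ∀ H, MvPolynomial.eval a (d H) ≠ 0 := fun H =>
    Finset.prod_ne_zero_iff.1 (right_ne_zero_of_mul ha) H (Finset.mem_univ H)
  have hheart := fun H => heart (Kb := AlgebraicClosure K) (m H) (hm H) (hmno H) a
    (hdsep H K (MvPolynomial.eval a) (had H))
  choose e he0 he using hheart
  obtain ⟨b, hb⟩ := exists_point (K := K) (Kb := AlgebraicClosure K)
    (MvPolynomial.X i0 * ∏ H : {H : Subgroup (F ≃ₐ[E] F) // ¬ α'.ker ≤ H}, e H)
    (mul_ne_zero (MvPolynomial.X_ne_zero i0) (Finset.prod_ne_zero_iff.2 fun H _ => he0 H))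
  rw [map_mul, map_prod, MvPolynomial.eval_X] at hb
  have hbi : b i0 ≠ 0 := by
    intro h
    apply left_ne_zero_of_mul hb
    rw [h, map_zero]
  have hbe : ∀ H, MvPolynomial.eval (fun i => algebraMap K (AlgebraicClosure K) (b i)) (e H) ≠ 0 :=
    fun H => Finset.prod_ne_zero_iff.1 (right_ne_zero_of_mul hb) H (Finset.mem_univ H)
  obtain ⟨F', h1, h2, h3, h4, h5, h6, h7, h8, γ', h9, h10⟩ := spec_line α' ψ hψK hψ (line a b)
    (line_surjective a b i0 hbi) (by
      intro Q _ hQ g hg
      apply hD Q _ g hg
      rw [hQ]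
      intro h0
      apply haD
      rw [← line_eval_zero a b, h0, eval_zero]) (by
      intro H hH
      exact ⟨θ ⟨H, hH⟩, m ⟨H, hH⟩, hθ1 ⟨H, hH⟩, hm ⟨H, hH⟩, hmθ ⟨H, hH⟩,
        he ⟨H, hH⟩ b (hbe ⟨H, hH⟩)⟩)
  exact ⟨F', h1, h2, h3, h4, h5, h6, h7, h8, γ'.trans γ, h9, h10⟩

/-- the case without variables -/
theorem taskA_empty (K L : Type) [Field K] [CharZero K] [Field L] [Algebra K L]
    [FiniteDimensional K L] [IsGalois K L] (G : Type) [Group G] [Finite G]
    (α : G →* (L ≃ₐ[K] L)) (hα : Function.Injective α)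
    (hfix : ∀ x : L, (∀ g : G, α g x = x) → x ∈ Set.range (algebraMap K L)) :
    ∃ (F : Type) (_ : Field F) (_ : Algebra (RatFunc K) F) (_ : Algebra L F)
      (_ : Algebra K F) (_ : IsScalarTower K (RatFunc K) F) (_ : IsScalarTower K L F)
      (_ : FiniteDimensional (RatFunc K) F) (_ : IsGalois (RatFunc K) F)
      (γ : (F ≃ₐ[RatFunc K] F) ≃* G),
      (∀ (σ : F ≃ₐ[RatFunc K] F) (x : L),
        σ (algebraMap L F x) = algebraMap L F (α (γ σ) x)) ∧
      ∀ y : F, IsAlgebraic L y → y ∈ Set.range (algebraMap L F) := by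
  classical
  let algKL : Algebra K[X] L[X] := (mapRingHom (algebraMap K L)).toAlgebra
  have halg : ∀ p : K[X], algebraMap K[X] L[X] p = p.map (algebraMap K L) := fun _ => rfl
  let actL : MulSemiringAction G L := MulSemiringAction.compHom L α
  have hactL : ∀ (g : G) (x : L), g • x = α g x := fun _ _ => rfl
  have hfaith : FaithfulSMul K[X] L[X] := by
    rw [faithfulSMul_iff_algebraMap_injective]
    exact map_injective _ (algebraMap K L).injective
  have hsmulK : ∀ (g : G) (p : K[X]), g • (algebraMap K[X] L[X] p) = algebraMap K[X] L[X] p := by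
    intro g p
    rw [halg]
    ext n
    rw [coeff_smul, coeff_map, hactL, AlgEquiv.commutes]
  have hcomm : SMulCommClass G K[X] L[X] := by
    constructor
    intro g q p
    rw [Algebra.smul_def, Algebra.smul_def, smul_mul', hsmulK]
  have hinv : Algebra.IsInvariant K[X] L[X] G := by
    constructor
    intro p hp
    have h1 : p ∈ Polynomial.lifts (algebraMap K L) := by
      rw [lifts_iff_coeff_lifts]
      intro n
      apply hfix
      intro g
      have := congrArg (fun q => coeff q n) (hp g)
      simp only [coeff_smul] at this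
      exact this
    obtain ⟨q, hq⟩ := (mem_lifts _).1 h1
    exact ⟨q, hq⟩
  apply spec_line α (A := K[X]) (C := L[X]) (C : L →+* L[X]) _ _ (AlgHom.id K K[X])
    Function.surjective_id
  · intro Q hQ _ g hg
    have h1 : ∃ l : L, α g l ≠ l := by
      by_contra hcon
      push Not at hcon
      apply hg
      apply hα
      rw [map_one]
      apply AlgEquiv.ext
      exact hcon
    obtain ⟨l, hl⟩ := h1
    refine ⟨C l, ?_⟩
    rw [smul_C, hactL, ← C_sub]
    intro h2
    apply hQ.ne_top
    apply Ideal.eq_top_of_isUnit_mem _ h2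
    exact (isUnit_C).2 (isUnit_iff_ne_zero.2 (sub_ne_zero.2 hl))
  · intro H hH
    exfalso
    apply hH
    rw [(MonoidHom.ker_eq_bot_iff α).2 hα]
    exact bot_le
  · intro k
    rw [halg, Polynomial.algebraMap_eq, map_C]
  · intro g x
    rw [smul_C, hactL]

theorem taskA : Pool.Agent.H391R2.T4.TaskA := by
  intro K L _ _ _ _ _ _ G _ _ α ι _ E _ _ _ _ _ F _ _ _ _ _ _ _ _ γ hαγ hreg
  rcases isEmpty_or_nonempty ι with hι | ⟨⟨i0⟩⟩
  swap
  · exact taskA_nonempty K L G α ι i0 E F γ hαγ hreg
  -- `E = K`
  have hE : ∀ e : E, ∃ k : K, algebraMap K E k = e := by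
    intro e
    obtain ⟨x, y, _, rfl⟩ := IsFractionRing.div_surjective (MvPolynomial ι K) e
    obtain ⟨x', rfl⟩ := MvPolynomial.C_surjective ι x
    obtain ⟨y', rfl⟩ := MvPolynomial.C_surjective ι y
    refine ⟨x' / y', ?_⟩
    rw [map_div₀, IsScalarTower.algebraMap_apply K (MvPolynomial ι K) E,
      IsScalarTower.algebraMap_apply K (MvPolynomial ι K) E]
    rfl
  have hF : ∀ y : F, y ∈ Set.range (algebraMap L F) := by
    intro y
    apply hreg
    have h1 : Algebra.IsAlgebraic K E := by
      constructor
      intro e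
      obtain ⟨k, rfl⟩ := hE e
      exact isAlgebraic_algebraMap k
    have h2 : Algebra.IsAlgebraic K F := Algebra.IsAlgebraic.trans K E F
    exact (h2.isAlgebraic y).extendScalars (algebraMap K L).injective
  apply taskA_empty K L G α
  · rw [injective_iff_map_eq_one]
    intro g hg
    obtain ⟨σ, rfl⟩ := γ.surjective g
    have h1 : σ = 1 := by
      apply AlgEquiv.ext
      intro y
      obtain ⟨x, rfl⟩ := hF y
      rw [hαγ, hg]
      rfl
    rw [h1, map_one]
  · intro x hx
    have h1 : algebraMap L F x ∈ Set.range (algebraMap E F) := by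
      rw [IsGalois.mem_range_algebraMap_iff_fixed]
      intro σ
      rw [hαγ, hx]
    obtain ⟨e, he⟩ := h1
    obtain ⟨k, rfl⟩ := hE e
    refine ⟨k, (algebraMap L F).injective ?_⟩
    rw [← he, ← IsScalarTower.algebraMap_apply K E F, ← IsScalarTower.algebraMap_apply K L F]

end Pool.Agent.H81R2.BT
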